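import Mathlib

/-!
# Lower macroscopic dimensions of the range of a transient random walk (MP_fbfbfd_pr)

We disprove Q1.  There is a transient random walk on `ℤ` whose steps are powers of two with
very lacunary exponents such that `λ_X = 0` and almost surely the macroscopic lower Hausdorff
dimension of the range is `1`.
-/

open MeasureTheory ProbabilityTheory Filter Set
open scoped Topology ENNReal

namespace Pool.Agent.Results.MP_fbfbfd_pr.LacunaryWalk

/-- `V_k = [-2^k, 2^k)^d`. -/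
def V (d k : ℕ) : Set (Fin d → ℤ) := {x | ∀ i, -(2 : ℤ) ^ k ≤ x i ∧ x i < (2 : ℤ) ^ k}

/-- The shells: `S_0 = V_0` and `S_{k+1} = V_{k+1} \ V_k`. -/
def shell (d : ℕ) : ℕ → Set (Fin d → ℤ)
  | 0 => V d 0
  | k + 1 => V d (k + 1) \ V d k

/-- The dyadic cube `∏ [j_i 2^l, (j_i + 1) 2^l)` of sidelength `2^l`. -/
def cube (d l : ℕ) (j : Fin d → ℤ) : Set (Fin d → ℤ) :=
  {x | ∀ i, j i * 2 ^ l ≤ x i ∧ x i < (j i + 1) * 2 ^ l}

/-- `N_α(A, S_k)`: the infimum of `∑ 2^(α (l_i - k - 1))` over all finite covers of `A ∩ S_k` by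
dyadic cubes of sidelengths `2^(l_i) ≥ 1`. -/
noncomputable def cov (d : ℕ) (α : ℝ) (A : Set (Fin d → ℤ)) (k : ℕ) : ℝ :=
  sInf {c | ∃ (m : ℕ) (l : Fin m → ℕ) (j : Fin m → Fin d → ℤ),
    A ∩ shell d k ⊆ ⋃ i, cube d (l i) (j i) ∧ c = ∑ i, (2 : ℝ) ^ (α * ((l i : ℝ) - k - 1))}

/-- The macroscopic lower Hausdorff dimension: the infimum of the `α > 0` with
`N_α(A, S_k) → 0` as `k → ∞`. -/
noncomputable def lowerHausdorff (d : ℕ) (A : Set (Fin d → ℤ)) : ℝ :=
  sInf {α | 0 < α ∧ Tendsto (fun k => cov d α A k) atTop (𝓝 0)}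

/-- The macroscopic lower Minkowski dimension: the lower limit of `(1/n) log₂ #(A ∩ V_n)`
(used for sets containing `0`). -/
noncomputable def lowerMinkowski (d : ℕ) (A : Set (Fin d → ℤ)) : ℝ :=
  liminf (fun n : ℕ => Real.logb 2 ((A ∩ V d n).ncard) / n) atTop

section walk

variable {Ω : Type} [MeasurableSpace Ω] {d : ℕ}

/-- The walk `X_n = ξ_1 + ... + ξ_n` with steps `ξ`. -/
def walk (ξ : ℕ → Ω → Fin d → ℤ) (n : ℕ) (ω : Ω) : Fin d → ℤ := ∑ i ∈ Finset.range n, ξ i ω

/-- The steps are independent and identically distributed. -/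
structure IsIID (P : Measure Ω) (ξ : ℕ → Ω → Fin d → ℤ) : Prop where
  meas : ∀ i, Measurable (ξ i)
  indep : iIndepFun ξ P
  ident : ∀ i, IdentDistrib (ξ i) (ξ 0) P P

/-- The range of the walk. -/
def rangeOf (ξ : ℕ → Ω → Fin d → ℤ) (ω : Ω) : Set (Fin d → ℤ) := {x | ∃ n, walk ξ n ω = x}

/-- `U(A) = ∑_n P{X_n ∈ A}`. -/
noncomputable def U (P : Measure Ω) (ξ : ℕ → Ω → Fin d → ℤ) (A : Set (Fin d → ℤ)) : ℝ≥0∞ :=
  ∑' n, P {ω | walk ξ n ω ∈ A}

/-- The walk is transient: its Green function `g(0,x) = ∑_n P{X_n = x}` is finite. -/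
def Transient (P : Measure Ω) (ξ : ℕ → Ω → Fin d → ℤ) : Prop := ∀ x, U P ξ {x} < ⊤

/-- `λ_X = liminf (1/n) log₂ U(V_n)`. -/
noncomputable def lam (P : Measure Ω) (ξ : ℕ → Ω → Fin d → ℤ) : ℝ :=
  liminf (fun n : ℕ => Real.logb 2 (U P ξ (V d n)).toReal / n) atTop

end walk

/-! ### Covering numbers on the line -/

lemma cov_lower (A : Set (Fin 1 → ℤ)) (k e : ℕ) (hek : e + 1 ≤ k) (α : ℝ) (hα0 : 0 < α)
    (hα1 : α ≤ 1) (hcond : (e : ℝ) ≤ (1 - α) * (k + 1))
    (hA : ∀ i : ℤ, (2 : ℤ) ^ (k - 1 - e) ≤ i → i < 2 * 2 ^ (k - 1 - e) →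
      ∃ x ∈ A, i * 2 ^ e ≤ x 0 ∧ x 0 < (i + 1) * 2 ^ e) :
    1 / 4 ≤ cov 1 α A k := by
  classical
  have hk1 : ∃ k', k = k' + 1 := ⟨k - 1, by omega⟩
  -- points of `A` in the shell
  set B : Finset ℤ := Finset.Ico ((2 : ℤ) ^ (k - 1 - e)) (2 * 2 ^ (k - 1 - e)) with hB
  have hpow : (2 : ℤ) ^ (k - 1 - e) * 2 ^ e = 2 ^ (k - 1) := by
    rw [← pow_add]; congr 1; omega
  have h2e : (0 : ℤ) < 2 ^ e := by positivity
  have hpt : ∀ i ∈ B, ∃ x ∈ A ∩ shell 1 k, i * 2 ^ e ≤ x 0 ∧ x 0 < (i + 1) * 2 ^ e := by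
    intro i hi
    rw [hB, Finset.mem_Ico] at hi
    obtain ⟨x, hxA, hx1, hx2⟩ := hA i hi.1 hi.2
    refine ⟨x, ⟨hxA, ?_⟩, hx1, hx2⟩
    have h1 : (2 : ℤ) ^ (k - 1) ≤ x 0 := by
      calc (2 : ℤ) ^ (k - 1) = (2 : ℤ) ^ (k - 1 - e) * 2 ^ e := hpow.symm
        _ ≤ i * 2 ^ e := by nlinarith [hi.1]
        _ ≤ x 0 := hx1
    have h2 : x 0 < 2 * (2 : ℤ) ^ (k - 1) := by
      calc x 0 < (i + 1) * 2 ^ e := hx2
        _ ≤ (2 * 2 ^ (k - 1 - e)) * 2 ^ e := by nlinarith [hi.2]
        _ = 2 * (2 : ℤ) ^ (k - 1) := by rw [mul_assoc, hpow]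
    obtain ⟨k', rfl⟩ := hk1
    simp only [Nat.add_sub_cancel] at h1 h2
    have hp : (0 : ℤ) < 2 ^ k' := by positivity
    refine ⟨?_, ?_⟩
    · intro i
      have : i = 0 := Subsingleton.elim _ _
      subst this
      rw [pow_succ]
      constructor <;> linarith
    · intro h
      exact absurd (h 0).2 (not_lt.2 h1)
  refine le_csInf ?_ ?_
  · -- there is a finite cover: unit cubes at all the points of `V_k`
    refine ⟨_, 2 * 2 ^ k, fun _ => 0, fun i _ => (i : ℤ) - 2 ^ k, ?_, rfl⟩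
    intro x hx
    have hxV : -(2 : ℤ) ^ k ≤ x 0 ∧ x 0 < (2 : ℤ) ^ k := by
      obtain ⟨k', rfl⟩ := hk1
      exact hx.2.1 0
    refine mem_iUnion.2 ⟨⟨(x 0 + 2 ^ k).toNat, ?_⟩, ?_⟩
    · have : ((x 0 + 2 ^ k).toNat : ℤ) < ((2 * 2 ^ k : ℕ) : ℤ) := by
        rw [Int.toNat_of_nonneg (by linarith)]; push_cast; linarith
      exact_mod_cast this
    · intro i
      have : i = 0 := Subsingleton.elim _ _
      subst this
      simp only [pow_zero, mul_one]
      rw [Int.toNat_of_nonneg (by linarith)]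
      constructor <;> linarith
  · rintro c ⟨m, l, j, hcov, rfl⟩
    by_cases hbig : ∃ a, k + 1 < l a
    · obtain ⟨a, ha⟩ := hbig
      have h1 : (1 : ℝ) ≤ (2 : ℝ) ^ (α * ((l a : ℝ) - k - 1)) := by
        apply Real.one_le_rpow (by norm_num)
        apply mul_nonneg hα0.le
        have : ((k : ℝ) + 1) < l a := by exact_mod_cast ha
        linarith
      calc (1 / 4 : ℝ) ≤ (2 : ℝ) ^ (α * ((l a : ℝ) - k - 1)) := by linarith
        _ ≤ _ := Finset.single_le_sum (f := fun i => (2 : ℝ) ^ (α * ((l i : ℝ) - k - 1)))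
            (fun i _ => by positivity) (Finset.mem_univ a)
    · push Not at hbig
      have hch : ∀ i ∈ B, ∃ a : Fin m, ∃ x : ℤ, (i * 2 ^ e ≤ x ∧ x < (i + 1) * 2 ^ e) ∧
          (j a 0 * 2 ^ l a ≤ x ∧ x < (j a 0 + 1) * 2 ^ l a) := by
        intro i hi
        obtain ⟨x, hx, hx1, hx2⟩ := hpt i hi
        obtain ⟨a, ha⟩ := mem_iUnion.1 (hcov hx)
        exact ⟨a, x 0, ⟨hx1, hx2⟩, ha 0⟩
      have : Nonempty (Fin m) := by
        have hmem : ((2 : ℤ) ^ (k - 1 - e)) ∈ B := by
          rw [hB, Finset.mem_Ico]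
          have : (0 : ℤ) < 2 ^ (k - 1 - e) := by positivity
          constructor <;> linarith
        obtain ⟨a, -⟩ := hch _ hmem
        exact ⟨a⟩
      choose! f y hy1 hy2 using hch
      have hcard : (B.card : ℝ) ≤ ∑ a : Fin m, (if e ≤ l a then (2 : ℝ) ^ (l a - e) else 1) := by
        have h1 : B.card = ∑ a : Fin m, (B.filter (fun i => f i = a)).card :=
          Finset.card_eq_sum_card_fiberwise (fun _ _ => Finset.mem_univ _)
        rw [h1]
        push_cast
        refine Finset.sum_le_sum fun a _ => ?_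
        split_ifs with hle
        · -- large cube
          have hsub : B.filter (fun i => f i = a) ⊆
              Finset.Ico (j a 0 * 2 ^ (l a - e)) ((j a 0 + 1) * 2 ^ (l a - e)) := by
            intro i hi
            rw [Finset.mem_filter] at hi
            obtain ⟨hiB, hfa⟩ := hi
            have h1 := hy1 i hiB
            have h2 := hy2 i hiB
            rw [hfa] at h2
            have hp2 : (2 : ℤ) ^ l a = 2 ^ (l a - e) * 2 ^ e := by
              rw [← pow_add]; congr 1; omega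
            rw [hp2] at h2
            rw [Finset.mem_Ico]
            constructor
            · have : j a 0 * 2 ^ (l a - e) * 2 ^ e < (i + 1) * 2 ^ e := by
                calc j a 0 * 2 ^ (l a - e) * 2 ^ e = j a 0 * (2 ^ (l a - e) * 2 ^ e) := by ring
                  _ ≤ y i := h2.1
                  _ < _ := h1.2
              have := lt_of_mul_lt_mul_right this h2e.le
              omega
            · have : i * 2 ^ e < (j a 0 + 1) * 2 ^ (l a - e) * 2 ^ e := by
                calc i * 2 ^ e ≤ y i := h1.1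
                  _ < _ := h2.2
                  _ = (j a 0 + 1) * 2 ^ (l a - e) * 2 ^ e := by ring
              exact lt_of_mul_lt_mul_right this h2e.le
          have h3 := Finset.card_le_card hsub
          rw [Int.card_Ico] at h3
          have h4 : ((j a 0 + 1) * 2 ^ (l a - e) - j a 0 * 2 ^ (l a - e)).toNat =
              2 ^ (l a - e) := by
            have : (j a 0 + 1) * 2 ^ (l a - e) - j a 0 * 2 ^ (l a - e) =
              ((2 ^ (l a - e) : ℕ) : ℤ) := by push_cast; ring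
            rw [this, Int.toNat_natCast]
          rw [h4] at h3
          exact_mod_cast h3
        · -- small cube
          push Not at hle
          have : (B.filter (fun i => f i = a)).card ≤ 1 := by
            rw [Finset.card_le_one]
            intro i hi i' hi'
            rw [Finset.mem_filter] at hi hi'
            have key : ∀ i, i ∈ B → f i = a → i = j a 0 / 2 ^ (e - l a) := by
              intro i hiB hfa
              have h1 := hy1 i hiB
              have h2 := hy2 i hiB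
              rw [hfa] at h2
              have hp2 : (2 : ℤ) ^ e = 2 ^ (e - l a) * 2 ^ l a := by
                rw [← pow_add]; congr 1; omega
              have hl : (0 : ℤ) < 2 ^ l a := by positivity
              rw [hp2] at h1
              have e1 : i * 2 ^ (e - l a) < j a 0 + 1 := by
                have : i * 2 ^ (e - l a) * 2 ^ l a < (j a 0 + 1) * 2 ^ l a := by
                  calc i * 2 ^ (e - l a) * 2 ^ l a = i * (2 ^ (e - l a) * 2 ^ l a) := by ring
                    _ ≤ y i := h1.1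
                    _ < _ := h2.2
                exact lt_of_mul_lt_mul_right this hl.le
              have e2 : j a 0 < (i + 1) * 2 ^ (e - l a) := by
                have : j a 0 * 2 ^ l a < (i + 1) * 2 ^ (e - l a) * 2 ^ l a := by
                  calc j a 0 * 2 ^ l a ≤ y i := h2.1
                    _ < (i + 1) * (2 ^ (e - l a) * 2 ^ l a) := h1.2
                    _ = (i + 1) * 2 ^ (e - l a) * 2 ^ l a := by ring
                exact lt_of_mul_lt_mul_right this hl.le
              have hq : (0 : ℤ) < 2 ^ (e - l a) := by positivity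
              symm
              rw [Int.ediv_eq_iff_of_pos hq]
              constructor <;> linarith
            rw [key i hi.1 hi.2, key i' hi'.1 hi'.2]
          exact_mod_cast this
      have hBc : (B.card : ℝ) = 2 ^ (k - 1 - e) := by
        rw [hB, Int.card_Ico]
        have : (2 * 2 ^ (k - 1 - e) - 2 ^ (k - 1 - e) : ℤ) = ((2 ^ (k - 1 - e) : ℕ) : ℤ) := by
          push_cast; ring
        rw [this, Int.toNat_natCast]
        push_cast; rfl
      have hN : (0 : ℝ) < 2 ^ (k - 1 - e) := by positivity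
      have hterm : ∀ a : Fin m, (if e ≤ l a then (2 : ℝ) ^ (l a - e) else 1) ≤
          4 * 2 ^ (k - 1 - e) * (2 : ℝ) ^ (α * ((l a : ℝ) - k - 1)) := by
        intro a
        have hla : ((l a : ℕ) : ℝ) ≤ k + 1 := by exact_mod_cast hbig a
        have h4 : (4 : ℝ) * 2 ^ (k - 1 - e) = (2 : ℝ) ^ ((k : ℝ) + 1 - e) := by
          have : ((k : ℝ) + 1 - e) = ((2 + (k - 1 - e) : ℕ) : ℝ) := by
            have : 2 + (k - 1 - e) + e = k + 1 := by omega
            have h' : ((2 + (k - 1 - e) + e : ℕ) : ℝ) = ((k + 1 : ℕ) : ℝ) := by rw [this]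
            push_cast at h' ⊢
            linarith
          rw [this, Real.rpow_natCast, pow_add]
          norm_num
        rw [h4, ← Real.rpow_add (by norm_num)]
        split_ifs with hle
        · have h5 : (2 : ℝ) ^ (l a - e) = (2 : ℝ) ^ ((l a : ℝ) - e) := by
            rw [← Nat.cast_sub hle, Real.rpow_natCast]
          rw [h5]
          apply Real.rpow_le_rpow_of_exponent_le (by norm_num)
          nlinarith
        · apply Real.one_le_rpow (by norm_num)
          have : (0 : ℝ) ≤ l a := by positivity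
          nlinarith
      have hsum : (2 : ℝ) ^ (k - 1 - e) ≤
          4 * 2 ^ (k - 1 - e) * ∑ a : Fin m, (2 : ℝ) ^ (α * ((l a : ℝ) - k - 1)) := by
        rw [← hBc, Finset.mul_sum]
        rw [hBc] at hcard ⊢
        exact hcard.trans (Finset.sum_le_sum fun a _ => hterm a)
      have : 1 ≤ 4 * ∑ a : Fin m, (2 : ℝ) ^ (α * ((l a : ℝ) - k - 1)) := by
        have h := hsum
        rw [show (4 : ℝ) * 2 ^ (k - 1 - e) * ∑ a : Fin m, (2 : ℝ) ^ (α * ((l a : ℝ) - k - 1)) =
          2 ^ (k - 1 - e) * (4 * ∑ a : Fin m, (2 : ℝ) ^ (α * ((l a : ℝ) - k - 1))) by ring] at h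
        by_contra hcon
        push Not at hcon
        have := mul_lt_mul_of_pos_left hcon hN
        linarith
      linarith

lemma cov_nonneg (d : ℕ) (α : ℝ) (A : Set (Fin d → ℤ)) (k : ℕ) : 0 ≤ cov d α A k := by
  apply Real.sInf_nonneg
  rintro c ⟨m, l, j, -, rfl⟩
  positivity

lemma cov_upper (A : Set (Fin 1 → ℤ)) (k : ℕ) (α : ℝ) :
    cov 1 α A k ≤ (2 : ℝ) ^ ((1 - α) * (k + 1)) := by
  apply csInf_le
  · refine ⟨0, ?_⟩
    rintro c ⟨m, l, j, -, rfl⟩
    positivity
  · refine ⟨2 * 2 ^ k, fun _ => 0, fun i _ => (i : ℤ) - 2 ^ k, ?_, ?_⟩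
    · intro x hx
      have hxV : -(2 : ℤ) ^ k ≤ x 0 ∧ x 0 < (2 : ℤ) ^ k := by
        cases k with
        | zero => exact hx.2 0
        | succ k => exact hx.2.1 0
      refine mem_iUnion.2 ⟨⟨(x 0 + 2 ^ k).toNat, ?_⟩, ?_⟩
      · have : ((x 0 + 2 ^ k).toNat : ℤ) < ((2 * 2 ^ k : ℕ) : ℤ) := by
          rw [Int.toNat_of_nonneg (by linarith)]; push_cast; linarith
        exact_mod_cast this
      · intro i
        have : i = 0 := Subsingleton.elim _ _
        subst this
        simp only [pow_zero, mul_one]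
        rw [Int.toNat_of_nonneg (by linarith)]
        constructor <;> linarith
    · simp only [Nat.cast_zero, Finset.sum_const, Finset.card_univ, Fintype.card_fin, nsmul_eq_mul]
      push_cast
      rw [show (2 : ℝ) * 2 ^ k = (2 : ℝ) ^ ((k : ℝ) + 1) by
        rw [Real.rpow_add (by norm_num), Real.rpow_natCast, Real.rpow_one]; ring]
      rw [← Real.rpow_add (by norm_num)]
      congr 1
      ring

lemma tendsto_cov_of_gt (A : Set (Fin 1 → ℤ)) (α : ℝ) (hα : 1 < α) :
    Tendsto (fun k => cov 1 α A k) atTop (𝓝 0) := by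
  refine squeeze_zero (fun k => cov_nonneg _ _ _ _) (fun k => cov_upper A k α) ?_
  have h1 : ∀ k : ℕ, (2 : ℝ) ^ ((1 - α) * ((k : ℝ) + 1)) = ((2 : ℝ) ^ (1 - α)) ^ (k + 1) := by
    intro k
    rw [← Real.rpow_natCast, ← Real.rpow_mul (by norm_num)]
    push_cast
    rfl
  simp_rw [h1]
  have h2 : (2 : ℝ) ^ (1 - α) < 1 := Real.rpow_lt_one_of_one_lt_of_neg (by norm_num) (by linarith)
  have h3 := tendsto_pow_atTop_nhds_zero_of_lt_one (by positivity : (0 : ℝ) ≤ 2 ^ (1 - α)) h2
  exact (tendsto_add_atTop_iff_nat 1).2 h3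

lemma lowerHausdorff_eq_one (A : Set (Fin 1 → ℤ))
    (h : ∀ α : ℝ, 0 < α → α < 1 → ∃ᶠ k in atTop, 1 / 4 ≤ cov 1 α A k) :
    lowerHausdorff 1 A = 1 := by
  apply le_antisymm
  · apply le_of_forall_pos_le_add
    intro ε hε
    apply csInf_le
    · exact ⟨0, fun α hα => hα.1.le⟩
    · exact ⟨by linarith, tendsto_cov_of_gt A (1 + ε) (by linarith)⟩
  · apply le_csInf
    · exact ⟨2, by norm_num, tendsto_cov_of_gt A 2 (by norm_num)⟩
    · rintro α ⟨h0, ht⟩
      by_contra hcon
      push Not at hcon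
      have h1 := h α h0 hcon
      have h2 : ∀ᶠ k in atTop, cov 1 α A k < 1 / 4 := ht.eventually (gt_mem_nhds (by norm_num))
      obtain ⟨k, hk1, hk2⟩ := (h1.and_eventually h2).exists
      linarith

/-! ### The walk -/

/-- The exponents of the step sizes. -/
def ex : ℕ → ℕ
  | 0 => 0
  | j + 1 => (j + 2) ^ 2 * (ex j + 1)

/-- Exponents of the tail probabilities. -/
def tl (j : ℕ) : ℕ := (j + 2) * (ex j + 1)

/-- `q_j`: the probability of a step larger than `2^(ex j)`. -/
noncomputable def q (j : ℕ) : ℝ := (1 / 2 : ℝ) ^ tl j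

lemma ex_strictMono : StrictMono ex := by
  apply strictMono_nat_of_lt_succ
  intro j
  show ex j < (j + 2) ^ 2 * (ex j + 1)
  calc ex j < 1 * (ex j + 1) := by omega
    _ ≤ (j + 2) ^ 2 * (ex j + 1) := Nat.mul_le_mul_right _ (Nat.one_le_pow _ _ (by omega))

lemma le_ex (j : ℕ) : j ≤ ex j := ex_strictMono.le_apply

lemma tl_strictMono : StrictMono tl := by
  intro a b hab
  unfold tl
  have := ex_strictMono hab
  exact Nat.mul_lt_mul'' (by omega) (by omega)

lemma q_pos (j : ℕ) : 0 < q j := by unfold q; positivity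

lemma q_le_one (j : ℕ) : q j ≤ 1 := pow_le_one₀ (by norm_num) (by norm_num)

lemma q_anti : Antitone q := by
  intro a b hab
  exact pow_le_pow_of_le_one (by norm_num) (by norm_num) (tl_strictMono.monotone hab)

lemma exists_lev (u : ℝ) : ∃ j, q j < u ∨ u ≤ 0 := by
  by_cases hu : u ≤ 0
  · exact ⟨0, Or.inr hu⟩
  · push Not at hu
    obtain ⟨n, hn⟩ := exists_pow_lt_of_lt_one hu (by norm_num : (1 / 2 : ℝ) < 1)
    refine ⟨n, Or.inl (lt_of_le_of_lt ?_ hn)⟩
    exact pow_le_pow_of_le_one (by norm_num) (by norm_num) tl_strictMono.le_apply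

open scoped Classical in
/-- The level of the step as a function of a uniform variable. -/
noncomputable def lev (u : ℝ) : ℕ := Nat.find (exists_lev u)

lemma lev_le_iff (u : ℝ) (j : ℕ) : lev u ≤ j ↔ (q j < u ∨ u ≤ 0) := by
  classical
  unfold lev
  rw [Nat.find_le_iff]
  constructor
  · rintro ⟨m, hm, h | h⟩
    · exact Or.inl (lt_of_le_of_lt (q_anti hm) h)
    · exact Or.inr h
  · intro h
    exact ⟨j, le_rfl, h⟩

lemma measurable_lev : Measurable lev := by
  classical
  have : ∀ k, MeasurableSet {u : ℝ | q k < u ∨ u ≤ 0} := fun k =>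
    (measurableSet_Ioi).union (measurableSet_Iic)
  exact measurable_find exists_lev this

/-- The uniform distribution on `(0, 1]`. -/
noncomputable def ν : Measure ℝ := volume.restrict (Ioc 0 1)

instance : IsProbabilityMeasure ν := ⟨by simp [ν]⟩

lemma ν_lev_gt (j : ℕ) : ν {u | j < lev u} = ENNReal.ofReal (q j) := by
  have h1 : {u : ℝ | j < lev u} = {u | ¬ (q j < u ∨ u ≤ 0)} := by
    ext u
    simp only [Set.mem_ofPred_eq, ← lev_le_iff, not_le]
  have h2 : {u : ℝ | j < lev u} ∩ Ioc 0 1 = Ioc 0 (q j) := by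
    rw [h1]
    ext u
    simp only [Set.mem_inter_iff, Set.mem_ofPred_eq, Set.mem_Ioc, not_or, not_lt, not_le]
    have := q_le_one j
    constructor
    · rintro ⟨⟨a, b⟩, c, d⟩
      exact ⟨b, a⟩
    · rintro ⟨a, b⟩
      exact ⟨⟨b, a⟩, a, b.trans this⟩
  have hm : MeasurableSet {u : ℝ | j < lev u} := by
    rw [h1]
    exact ((measurableSet_Ioi).union (measurableSet_Iic)).compl
  rw [ν, Measure.restrict_apply hm, h2, Real.volume_Ioc, sub_zero]

lemma ν_lev_le (j : ℕ) : ν {u | lev u ≤ j} = 1 - ENNReal.ofReal (q j) := by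
  have h1 : {u : ℝ | lev u ≤ j} = {u | j < lev u}ᶜ := by
    ext u; simp
  have hm : MeasurableSet {u : ℝ | j < lev u} := measurable_lev measurableSet_Ioi
  rw [h1, prob_compl_eq_one_sub hm, ν_lev_gt]

/-- The product measure. -/
noncomputable def P : Measure (ℕ → ℝ) := Measure.infinitePi (fun _ => ν)

instance : IsProbabilityMeasure P := by unfold P; infer_instance

/-- The steps of the walk. -/
noncomputable def ξ (i : ℕ) (ω : ℕ → ℝ) : Fin 1 → ℤ := fun _ => 2 ^ ex (lev (ω i))

lemma measurable_step : Measurable (fun (u : ℝ) (_ : Fin 1) => (2 : ℤ) ^ ex (lev u)) := by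
  apply measurable_pi_lambda
  intro _
  exact (measurable_from_nat (f := fun n => (2 : ℤ) ^ ex n)).comp measurable_lev

lemma isIID : IsIID P ξ where
  meas i := measurable_step.comp (measurable_pi_apply i)
  indep := iIndepFun_infinitePi (X := fun _ u (_ : Fin 1) => (2 : ℤ) ^ ex (lev u))
    (fun _ => measurable_step)
  ident i := by
    refine ⟨(measurable_step.comp (measurable_pi_apply i)).aemeasurable,
      (measurable_step.comp (measurable_pi_apply 0)).aemeasurable, ?_⟩
    have h : ∀ i, Measure.map (ξ i) P = Measure.map (fun (u : ℝ) (_ : Fin 1) =>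
        (2 : ℤ) ^ ex (lev u)) ν := by
      intro i
      have : ξ i = (fun (u : ℝ) (_ : Fin 1) => (2 : ℤ) ^ ex (lev u)) ∘ (fun ω : ℕ → ℝ => ω i) :=
        rfl
      rw [this, ← Measure.map_map measurable_step (measurable_pi_apply i)]
      rw [P, Measure.infinitePi_map_eval]
    rw [h i, h 0]

lemma walk_succ (n : ℕ) (ω : ℕ → ℝ) :
    walk ξ (n + 1) ω 0 = walk ξ n ω 0 + 2 ^ ex (lev (ω n)) := by
  unfold walk
  rw [Finset.sum_range_succ]
  rfl

lemma walk_zero (ω : ℕ → ℝ) : walk ξ 0 ω 0 = 0 := by simp [walk]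

lemma le_walk (n : ℕ) (ω : ℕ → ℝ) : (n : ℤ) ≤ walk ξ n ω 0 := by
  induction n with
  | zero => simp [walk]
  | succ n ih =>
    rw [walk_succ]
    have : (1 : ℤ) ≤ 2 ^ ex (lev (ω n)) := one_le_pow₀ (by norm_num)
    push_cast
    linarith

lemma step_le_walk (n : ℕ) (ω : ℕ → ℝ) (i : ℕ) (hi : i < n) :
    (2 : ℤ) ^ ex (lev (ω i)) ≤ walk ξ n ω 0 := by
  induction n with
  | zero => omega
  | succ n ih =>
    rw [walk_succ]
    have hp : (0 : ℤ) < 2 ^ ex (lev (ω n)) := by positivity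
    have h0 : (0 : ℤ) ≤ walk ξ n ω 0 := le_trans (by positivity) (le_walk n ω)
    rcases Nat.lt_succ_iff_lt_or_eq.1 hi with h | h
    · linarith [ih h]
    · rw [h]; linarith

lemma transient : Transient P ξ := by
  intro x
  unfold U
  rw [tsum_eq_sum (s := Finset.range ((x 0).toNat + 1))]
  · exact ENNReal.sum_lt_top.2 fun n _ => measure_lt_top _ _
  · intro n hn
    rw [Finset.mem_range, not_lt] at hn
    have : {ω | walk ξ n ω ∈ ({x} : Set (Fin 1 → ℤ))} = ∅ := by
      ext ω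
      simp only [Set.mem_ofPred_eq, Set.mem_singleton_iff, Set.mem_empty_iff_false, iff_false]
      intro h
      have h1 := le_walk n ω
      rw [h] at h1
      omega
    rw [this, measure_empty]

lemma U_lt_top (n : ℕ) : U P ξ (V 1 n) < ⊤ := by
  unfold U
  rw [tsum_eq_sum (s := Finset.range (2 ^ n))]
  · exact ENNReal.sum_lt_top.2 fun n _ => measure_lt_top _ _
  · intro t ht
    rw [Finset.mem_range, not_lt] at ht
    have : {ω | walk ξ t ω ∈ V 1 n} = ∅ := by
      ext ω
      simp only [Set.mem_ofPred_eq, Set.mem_empty_iff_false, iff_false]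
      intro h
      have h1 := le_walk t ω
      have h2 := (h 0).2
      have h3 : ((2 ^ n : ℕ) : ℤ) ≤ t := by exact_mod_cast ht
      push_cast at h3
      linarith
    rw [this, measure_empty]

lemma one_le_U (n : ℕ) : 1 ≤ U P ξ (V 1 n) := by
  unfold U
  have h0 : P {ω | walk ξ 0 ω ∈ V 1 n} = 1 := by
    have : {ω | walk ξ 0 ω ∈ V 1 n} = univ := by
      ext ω
      simp only [Set.mem_ofPred_eq, Set.mem_univ, iff_true]
      intro i
      have : i = 0 := Subsingleton.elim _ _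
      subst this
      rw [walk_zero]
      have : (0 : ℤ) < 2 ^ n := by positivity
      constructor <;> linarith
    rw [this, measure_univ]
  rw [← h0]
  exact ENNReal.le_tsum 0

lemma U_le (j : ℕ) : U P ξ (V 1 (ex (j + 1))) ≤ (ENNReal.ofReal (q j))⁻¹ := by
  have h : ∀ t, P {ω | walk ξ t ω ∈ V 1 (ex (j + 1))} ≤ (1 - ENNReal.ofReal (q j)) ^ t := by
    intro t
    have hsub : {ω | walk ξ t ω ∈ V 1 (ex (j + 1))} ⊆
        Set.pi (Finset.range t : Set ℕ) (fun _ => {u | lev u ≤ j}) := by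
      intro ω hω i hi
      have hi' : i < t := by simpa using hi
      have h1 := step_le_walk t ω i hi'
      have h2 := (hω 0).2
      have h3 : (2 : ℤ) ^ ex (lev (ω i)) < 2 ^ ex (j + 1) := lt_of_le_of_lt h1 h2
      have h4 : ex (lev (ω i)) < ex (j + 1) := (pow_lt_pow_iff_right₀ (by norm_num)).1 h3
      have h5 : lev (ω i) < j + 1 := ex_strictMono.lt_iff_lt.1 h4
      exact Nat.lt_succ_iff.1 h5
    refine (measure_mono hsub).trans ?_
    have hm : MeasurableSet {u : ℝ | lev u ≤ j} := measurable_lev measurableSet_Iic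
    rw [P, Measure.infinitePi_pi _ (t := fun _ => {u : ℝ | lev u ≤ j}) (fun i _ => hm)]
    rw [Finset.prod_congr rfl (fun i _ => ν_lev_le j)]
    simp
  unfold U
  refine (ENNReal.tsum_le_tsum h).trans ?_
  rw [ENNReal.tsum_geometric]
  apply ENNReal.inv_le_inv.2
  apply ENNReal.le_sub_of_add_le_left
  · exact ne_top_of_le_ne_top ENNReal.one_ne_top tsub_le_self
  · rw [tsub_add_cancel_of_le]
    exact ENNReal.ofReal_le_one.2 (q_le_one j)

lemma logb_U_nonneg (n : ℕ) : 0 ≤ Real.logb 2 (U P ξ (V 1 n)).toReal / n := by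
  apply div_nonneg _ (Nat.cast_nonneg n)
  apply Real.logb_nonneg (by norm_num)
  have := ENNReal.toReal_mono (U_lt_top n).ne (one_le_U n)
  simpa using this

lemma logb_U_le (j : ℕ) :
    Real.logb 2 (U P ξ (V 1 (ex (j + 1)))).toReal / (ex (j + 1) : ℕ) ≤ 1 / ((j : ℝ) + 2) := by
  have hU : (U P ξ (V 1 (ex (j + 1)))).toReal ≤ (q j)⁻¹ := by
    have h1 := U_le j
    rw [← ENNReal.ofReal_inv_of_pos (q_pos j)] at h1
    exact ENNReal.toReal_le_of_le_ofReal (inv_nonneg.2 (q_pos j).le) h1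
  have hU1 : (1 : ℝ) ≤ (U P ξ (V 1 (ex (j + 1)))).toReal := by
    have := ENNReal.toReal_mono (U_lt_top (ex (j + 1))).ne (one_le_U (ex (j + 1)))
    simpa using this
  have hlog : Real.logb 2 (U P ξ (V 1 (ex (j + 1)))).toReal ≤ tl j := by
    rw [Real.logb_le_iff_le_rpow (by norm_num) (by linarith), Real.rpow_natCast]
    refine hU.trans (le_of_eq ?_)
    unfold q
    rw [one_div, inv_pow, inv_inv]
  have hpos : (0 : ℝ) < (ex (j + 1) : ℕ) := by
    have : 0 < ex (j + 1) := lt_of_lt_of_le (Nat.succ_pos j) (le_ex (j + 1))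
    exact_mod_cast this
  rw [div_le_iff₀ hpos]
  refine hlog.trans (le_of_eq ?_)
  show ((tl j : ℕ) : ℝ) = 1 / ((j : ℝ) + 2) * (((j + 2) ^ 2 * (ex j + 1) : ℕ) : ℝ)
  unfold tl
  push_cast
  field_simp

lemma lam_eq : lam P ξ = 0 := by
  unfold lam
  have hfreq : ∀ ε : ℝ, 0 < ε →
      ∃ᶠ n : ℕ in atTop, Real.logb 2 (U P ξ (V 1 n)).toReal / n ≤ ε := by
    intro ε hε
    rw [frequently_atTop]
    intro N
    obtain ⟨j0, hj0⟩ := exists_nat_gt (1 / ε)
    set j := max N j0 with hj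
    refine ⟨ex (j + 1), ?_, ?_⟩
    · have := le_ex (j + 1)
      have h2 : N ≤ j := le_max_left _ _
      omega
    · refine (logb_U_le j).trans ?_
      have h1 : (j0 : ℝ) ≤ j := by exact_mod_cast le_max_right _ _
      rw [div_le_iff₀ (by positivity)]
      rw [div_lt_iff₀ hε] at hj0
      nlinarith
  have hbdd : IsBoundedUnder (· ≥ ·) atTop
      (fun n : ℕ => Real.logb 2 (U P ξ (V 1 n)).toReal / n) :=
    isBoundedUnder_of_eventually_ge (a := 0) (Eventually.of_forall fun n => logb_U_nonneg n)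
  apply le_antisymm
  · apply le_of_forall_pos_le_add
    intro ε hε
    rw [zero_add]
    exact liminf_le_of_frequently_le (hfreq ε hε) hbdd
  · apply le_liminf_of_le
    · exact IsCoboundedUnder.of_frequently_le (hfreq 1 one_pos)
    · exact Eventually.of_forall fun n => logb_U_nonneg n

/-- The scale of the shells in which the range is thick. -/
def sc (j : ℕ) : ℕ := (j + 1) * (ex j + 1)

/-- The bad event at level `j`. -/
def bad (j : ℕ) : Set (ℕ → ℝ) := {ω | ∃ i < 2 ^ sc j, j < lev (ω i)}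

lemma P_bad (j : ℕ) : P (bad j) ≤ ENNReal.ofReal ((1 / 2 : ℝ) ^ j) := by
  have h1 : bad j ⊆ ⋃ i ∈ Finset.range (2 ^ sc j), (fun ω : ℕ → ℝ => ω i) ⁻¹' {u | j < lev u} := by
    rintro ω ⟨i, hi, h⟩
    simp only [Set.mem_iUnion, Finset.mem_range]
    exact ⟨i, hi, h⟩
  have hm : MeasurableSet {u : ℝ | j < lev u} := measurable_lev measurableSet_Ioi
  refine (measure_mono h1).trans ((measure_biUnion_finset_le _ _).trans ?_)
  have h2 : ∀ i : ℕ, P ((fun ω : ℕ → ℝ => ω i) ⁻¹' {u | j < lev u}) = ENNReal.ofReal (q j) := by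
    intro i
    rw [← Measure.map_apply (measurable_pi_apply i) hm, P, Measure.infinitePi_map_eval, ν_lev_gt]
  rw [Finset.sum_congr rfl (fun i _ => h2 i), Finset.sum_const, Finset.card_range, nsmul_eq_mul,
    ← ENNReal.ofReal_natCast, ← ENNReal.ofReal_mul (Nat.cast_nonneg _)]
  apply ENNReal.ofReal_le_ofReal
  unfold q
  have h3 : tl j = sc j + (ex j + 1) := by unfold tl sc; ring
  rw [h3, pow_add]
  push_cast
  have h4 : (2 : ℝ) ^ sc j * ((1 / 2) ^ sc j * (1 / 2) ^ (ex j + 1)) = (1 / 2) ^ (ex j + 1) := by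
    rw [← mul_assoc, ← mul_pow]; norm_num
  rw [h4]
  exact pow_le_pow_of_le_one (by norm_num) (by norm_num) ((le_ex j).trans (Nat.le_succ _))

lemma good_blocks (ω : ℕ → ℝ) (j : ℕ) (hω : ω ∉ bad j) (i : ℤ) (hi1 : 1 ≤ i)
    (hi2 : i < 2 * 2 ^ (sc j - 1 - ex j)) :
    ∃ x ∈ rangeOf ξ ω, i * 2 ^ ex j ≤ x 0 ∧ x 0 < (i + 1) * 2 ^ ex j := by
  classical
  have h2e : (0 : ℤ) < 2 ^ ex j := by positivity
  have hsc : ex j + 1 ≤ sc j := by
    unfold sc; nlinarith [Nat.zero_le j, Nat.zero_le (ex j)]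
  have hbound : i * 2 ^ ex j < 2 ^ sc j := by
    calc i * 2 ^ ex j < 2 * 2 ^ (sc j - 1 - ex j) * 2 ^ ex j :=
          mul_lt_mul_of_pos_right hi2 h2e
      _ = 2 ^ sc j := by
          rw [← pow_succ', ← pow_add]
          congr 1
          omega
  have hex : ∃ t, i * 2 ^ ex j ≤ walk ξ t ω 0 := by
    refine ⟨(i * 2 ^ ex j).toNat, le_trans ?_ (le_walk _ ω)⟩
    exact Int.self_le_toNat _
  obtain ⟨t, ht⟩ : ∃ t, t = Nat.find hex := ⟨_, rfl⟩
  have h1 : i * 2 ^ ex j ≤ walk ξ t ω 0 := by rw [ht]; exact Nat.find_spec hex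
  have hpos : 0 < i * 2 ^ ex j := by positivity
  have ht0 : t ≠ 0 := by
    rintro rfl
    rw [walk_zero] at h1
    linarith
  obtain ⟨s, rfl⟩ := Nat.exists_eq_succ_of_ne_zero ht0
  have h2 : walk ξ s ω 0 < i * 2 ^ ex j := by
    have := Nat.find_min hex (m := s) (by omega)
    push Not at this
    exact this
  have hs : s < 2 ^ sc j := by
    have h3 := le_walk s ω
    have : (s : ℤ) < ((2 ^ sc j : ℕ) : ℤ) := by push_cast; linarith
    exact_mod_cast this
  have hlev : lev (ω s) ≤ j := by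
    by_contra hcon
    push Not at hcon
    exact hω ⟨s, hs, hcon⟩
  have hstep : (2 : ℤ) ^ ex (lev (ω s)) ≤ 2 ^ ex j :=
    pow_le_pow_right₀ (by norm_num) (ex_strictMono.monotone hlev)
  refine ⟨walk ξ (s + 1) ω, ⟨s + 1, rfl⟩, h1, ?_⟩
  rw [walk_succ]
  linarith

lemma ae_dim : ∀ᵐ ω ∂P, lowerHausdorff 1 (rangeOf ξ ω) = 1 := by
  have hsum : ∑' j, P (bad j) ≠ ⊤ := by
    have h1 : ∑' j : ℕ, ENNReal.ofReal ((1 / 2 : ℝ) ^ j) ≠ ⊤ := by
      rw [← ENNReal.ofReal_tsum_of_nonneg (fun n => by positivity)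
        (summable_geometric_of_lt_one (by norm_num) (by norm_num))]
      exact ENNReal.ofReal_ne_top
    exact ne_top_of_le_ne_top h1 (ENNReal.tsum_le_tsum P_bad)
  filter_upwards [ae_eventually_notMem hsum] with ω hω
  apply lowerHausdorff_eq_one
  intro α hα0 hα1
  rw [frequently_atTop]
  intro K
  obtain ⟨j1, hj1⟩ := eventually_atTop.1 hω
  obtain ⟨j2, hj2⟩ := exists_nat_gt (1 / (1 - α))
  set j := max K (max j1 j2) with hj
  have hjK : K ≤ j := le_max_left _ _
  have hjj1 : j1 ≤ j := (le_max_left _ _).trans (le_max_right _ _)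
  have hjj2 : j2 ≤ j := (le_max_right _ _).trans (le_max_right _ _)
  have hsc : ex j + 1 ≤ sc j := by
    unfold sc; nlinarith [Nat.zero_le j, Nat.zero_le (ex j)]
  refine ⟨sc j, ?_, ?_⟩
  · have := le_ex j
    omega
  · apply cov_lower (rangeOf ξ ω) (sc j) (ex j) hsc α hα0 hα1.le
    · have h1 : (1 : ℝ) ≤ (1 - α) * ((j : ℝ) + 1) := by
        have h2 : (j2 : ℝ) ≤ j := by exact_mod_cast hjj2
        rw [div_lt_iff₀ (by linarith)] at hj2
        nlinarith
      have h3 : ((sc j : ℕ) : ℝ) = ((j : ℝ) + 1) * (ex j + 1) := by unfold sc; push_cast; ring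
      rw [h3]
      have h4 : (0 : ℝ) ≤ ex j := Nat.cast_nonneg _
      nlinarith
    · intro i hi1 hi2
      refine good_blocks ω j (hj1 j hjj1) i ?_ hi2
      exact le_trans (one_le_pow₀ (by norm_num)) hi1

/-- **Q1 is false.**  There is a random walk on `ℤ` (the case `d = 1`) which is transient, has
`λ_X = 0`, and whose range almost surely has macroscopic lower Hausdorff dimension `1`.  In
particular the two equalities `lower Hausdorff = lower Minkowski = λ_X` almost surely do not both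
hold. -/
theorem result :
    ∃ (Ω : Type) (_ : MeasurableSpace Ω) (P : Measure Ω) (_ : IsProbabilityMeasure P)
      (ξ : ℕ → Ω → Fin 1 → ℤ), IsIID P ξ ∧ Transient P ξ ∧ lam P ξ = 0 ∧
      (∀ᵐ ω ∂P, lowerHausdorff 1 (rangeOf ξ ω) = 1) ∧
      (∀ᵐ ω ∂P, ¬ (lowerHausdorff 1 (rangeOf ξ ω) = lowerMinkowski 1 (rangeOf ξ ω) ∧
        lowerMinkowski 1 (rangeOf ξ ω) = lam P ξ)) := by
  refine ⟨ℕ → ℝ, inferInstance, P, inferInstance, ξ, isIID, transient, lam_eq, ae_dim, ?_⟩
  filter_upwards [ae_dim] with ω hω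
  rintro ⟨h1, h2⟩
  rw [hω, h2, lam_eq] at h1
  norm_num at h1

end Pool.Agent.Results.MP_fbfbfd_pr.LacunaryWalk
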